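import Pool.Agent.Lead.TB.Defs
import Pool.Agent.Helper87.TB.Split

/-!
# Project TB, module TB-F: lower bound for the number of factorisations
-/

set_option autoImplicit false

namespace Pool.Agent.Lead.TB

open Finset

theorem reg_of_half {n m : ℕ} {G K : Gr n} (hK : K ∈ half m G) : Reg m K := by
  simp only [half, mem_filter, mem_univ, true_and] at hK
  exact ⟨hK.2.1, hK.2.2⟩

theorem reg_sdiff_of_half {n m : ℕ} {G K : Gr n} (hG : Reg (2 * m) G) (hK : K ∈ half m G) :
    Reg m (fun r => G r \ K r) := by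
  simp only [half, mem_filter, mem_univ, true_and] at hK
  obtain ⟨h1, h2, h3⟩ := hK
  refine ⟨fun r => ?_, fun c => ?_⟩
  · show (G r \ K r).card = m
    rw [card_sdiff_of_subset (h1 r), hG.1 r, h2 r]
    omega
  · have e : (univ.filter fun r => c ∈ G r \ K r) =
        (univ.filter fun r => c ∈ G r) \ (univ.filter fun r => c ∈ K r) := by
      ext r
      simp only [mem_filter, mem_univ, true_and, mem_sdiff]
    have hs : (univ.filter fun r => c ∈ K r) ⊆ (univ.filter fun r => c ∈ G r) := by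
      intro r hr
      simp only [mem_filter, mem_univ, true_and] at hr ⊢
      exact h1 r hr
    show (univ.filter fun r => c ∈ G r \ K r).card = m
    rw [e, card_sdiff_of_subset hs, hG.2 c, h3 c]
    omega

theorem fac_one {n N : ℕ} (hN : N = 1) (G : Gr n) (hG : Reg N G) :
    1 ≤ (fac (Fin N) G).card := by
  subst hN
  have h1 : ∀ r, ∃ c, G r = {c} := fun r => card_eq_one.1 (hG.1 r)
  choose f hf using h1
  have hinj : Function.Injective f := by
    intro r r' hrr
    obtain ⟨a, ha⟩ := card_eq_one.1 (hG.2 (f r))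
    have h2 : r ∈ (univ.filter fun x => f r ∈ G x) := by
      simp [hf]
    have h3 : r' ∈ (univ.filter fun x => f r ∈ G x) := by
      simp [hf, hrr]
    rw [ha, mem_singleton] at h2 h3
    rw [h2, h3]
  have hbij : Function.Bijective f := (Finite.injective_iff_bijective).1 hinj
  rw [Nat.one_le_iff_ne_zero, ← Nat.pos_iff_ne_zero, card_pos]
  refine ⟨fun _ => Equiv.ofBijective f hbij, ?_⟩
  simp only [fac, mem_filter, mem_univ, true_and]
  refine ⟨fun i r => ?_, fun i j hij => absurd (Subsingleton.elim i j) hij⟩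
  show f r ∈ G r
  rw [hf r]
  exact mem_singleton_self _

/-- The statement of `halves` (module TB-D), for graphs on `n` rows and columns. -/
def HalvesStmt (n : ℕ) : Prop := ∀ (m : ℕ) (G : Gr n), Reg (2 * m) G →
  (2 * m).factorial ^ (2 * n) ≤ (half m G).card * (2 ^ m * m.factorial ^ 2) ^ (2 * n)

theorem lower_aux {n : ℕ} (halves : HalvesStmt n) (k : ℕ) : ∀ (N : ℕ), N = 2 ^ k → ∀ (G : Gr n), Reg N G →
    (((N.factorial : ℝ)) ^ 2 / ((N : ℝ)) ^ N) ^ n ≤ ((fac (Fin N) G).card : ℝ) := by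
  induction k with
  | zero =>
    intro N hN G hG
    have hN1 : N = 1 := by simpa using hN
    have h := fac_one hN1 G hG
    subst hN1
    have : (1 : ℝ) ≤ ((fac (Fin 1) G).card : ℝ) := by exact_mod_cast h
    simpa using this
  | succ k ih =>
    intro N hN G hG
    obtain ⟨m, hm⟩ : ∃ m, m = 2 ^ k := ⟨_, rfl⟩
    have hNm : N = 2 * m := by rw [hN, hm, pow_succ, mul_comm]
    have hmpos : 0 < m := by rw [hm]; positivity
    clear hN
    subst hNm
    have hs : (∑ K ∈ half m G, ((fac (Fin m) K).card : ℝ) *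
        ((fac (Fin m) fun r => G r \ K r).card : ℝ)) ≤ ((fac (Fin (2 * m)) G).card : ℝ) := by
      exact_mod_cast split (m := m) G
    have hh : ((2 * m).factorial : ℝ) ^ (2 * n) ≤
        ((half m G).card : ℝ) * ((2 : ℝ) ^ m * (m.factorial : ℝ) ^ 2) ^ (2 * n) := by
      exact_mod_cast halves m G hG
    set B : ℝ := ((m.factorial : ℝ)) ^ 2 / ((m : ℝ)) ^ m with hB
    have hB0 : 0 ≤ B := by positivity
    have hsum : ((half m G).card : ℝ) * (B ^ n * B ^ n) ≤
        ∑ K ∈ half m G, ((fac (Fin m) K).card : ℝ) *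
        ((fac (Fin m) fun r => G r \ K r).card : ℝ) := by
      rw [← nsmul_eq_mul, ← sum_const]
      refine sum_le_sum fun K hK => ?_
      exact mul_le_mul (ih m hm K (reg_of_half hK)) (ih m hm _ (reg_sdiff_of_half hG hK))
        (by positivity) (by positivity)
    refine le_trans ?_ (le_trans hsum hs)
    have hmr : (0 : ℝ) < m := by exact_mod_cast hmpos
    have e1 : (((2 * m).factorial : ℝ) ^ 2 / (((2 * m : ℕ) : ℝ)) ^ (2 * m)) ^ n =
        ((2 * m).factorial : ℝ) ^ (2 * n) / (((2 : ℝ) ^ m) ^ (2 * n) * ((m : ℝ) ^ m) ^ (2 * n)) := by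
      push_cast
      rw [div_pow, ← pow_mul, ← pow_mul, ← mul_pow, ← mul_pow, ← pow_mul,
        show 2 * m * n = m * (2 * n) by ring]
    have e2 : ((half m G).card : ℝ) * (B ^ n * B ^ n) =
        (((half m G).card : ℝ) * ((2 : ℝ) ^ m * (m.factorial : ℝ) ^ 2) ^ (2 * n)) /
          (((2 : ℝ) ^ m) ^ (2 * n) * ((m : ℝ) ^ m) ^ (2 * n)) := by
      have h2 : ((2 : ℝ) ^ m) ^ (2 * n) ≠ 0 := by positivity
      have h3 : ((m : ℝ) ^ m) ^ (2 * n) ≠ 0 := by positivity
      rw [← pow_add, ← two_mul, hB, div_pow, mul_pow]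
      field_simp
    rw [e1, e2]
    exact div_le_div_of_nonneg_right hh (by positivity)

theorem lower_of_halves {n k : ℕ} (halves : HalvesStmt n) (G : Gr n) (hG : Reg (2 ^ k) G) :
    ((((2 ^ k).factorial : ℝ)) ^ 2 / ((2 : ℝ) ^ k) ^ (2 ^ k)) ^ n ≤
      ((fac (Fin (2 ^ k)) G).card : ℝ) := by
  have h := lower_aux halves k (2 ^ k) rfl G hG
  push_cast at h
  exact h

end Pool.Agent.Lead.TB
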