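import Pool.Agent.Helper45.TB.Lower
import Pool.Agent.Helper85.TB.Halves

/-!
# Project TB, module TB-F: the lower bound, unconditional
-/

set_option autoImplicit false

namespace Pool.Agent.Lead.TB

open Finset

theorem lower {n k : ℕ} (G : Gr n) (hG : Reg (2 ^ k) G) :
    ((((2 ^ k).factorial : ℝ)) ^ 2 / ((2 : ℝ) ^ k) ^ (2 ^ k)) ^ n ≤
      ((fac (Fin (2 ^ k)) G).card : ℝ) :=
  lower_of_halves (fun _ G hG => halves G hG) G hG

end Pool.Agent.Lead.TB
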